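import Pool.Agent.Helper93.RC.Spec

/-!
P6: assembling the probabilistic half.
-/

namespace Pool.Agent.Helper93.RC

open Filter Topology
open scoped Classical

theorem gnp_le_one (h0 : ST_P0a) (n : ℕ) (p : ℝ) (hp : 0 ≤ p) (hp1 : p ≤ 1)
    (A : Set (SimpleGraph (Fin n))) : gnp n p A ≤ 1 := by
  rw [← h0 n p]
  unfold gnp Ex wt
  refine Finset.sum_le_sum fun G _ => ?_
  have hnn : 0 ≤ p ^ G.edgeSet.ncard * (1 - p) ^ (n.choose 2 - G.edgeSet.ncard) :=
    mul_nonneg (pow_nonneg hp _) (pow_nonneg (by linarith) _)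
  split_ifs
  · rw [mul_one]
  · rw [mul_one]; exact hnn

theorem st_P6 (h0 : ST_P0a) (h2 : ST_P2) (h4 : ST_P4) (h5 : ST_P5) : ST_prob := by
  intro p ε hε hlow hup
  rw [Metric.tendsto_atTop']
  intro η hη
  obtain ⟨K, n0, hK⟩ := h2 ε (η / 2) hε (by linarith)
  obtain ⟨A, n1, hA⟩ := h4 K (η / 2) (by linarith)
  obtain ⟨n2, hn2⟩ := h5 A (η / 2) (by linarith)
  obtain ⟨n3, hn3⟩ := eventually_atTop.mp hlow
  obtain ⟨n4, hn4⟩ := eventually_atTop.mp hup
  refine ⟨max (max n0 n1) (max (max n2 n3) (max n4 1)), fun n hn => ?_⟩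
  have hn' := hn.le
  simp only [ge_iff_le, max_le_iff] at hn'
  obtain ⟨⟨hn0, hn1⟩, ⟨⟨hn2', hn3'⟩, ⟨hn4', hn5⟩⟩⟩ := hn'
  have hnpos : (0 : ℝ) < n := by exact_mod_cast hn5
  have hlo := hn3 n hn3'
  have hhi := hn4 n hn4'
  have hp0 : 0 < p n := lt_trans (by positivity) hlo
  have hp1 : p n < 1 := by linarith
  have hnp : 1 ≤ n * p n := by
    rw [div_lt_iff₀ hnpos] at hlo
    linarith [mul_comm (p n) (n : ℝ)]
  have hle := gnp_le_one h0 n (p n) hp0.le hp1.le {G | HasConf G}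
  have hmain : 1 - gnp n (p n) {G | HasConf G} ≤ η / 2 := by
    by_cases hc : K ≤ n * p n ^ 2
    · exact hK n (p n) hn0 hp0 hhi hc
    · push Not at hc
      by_cases hc' : A ≤ n * p n
      · exact hA n (p n) hn1 hp0 hp1 hc' hc.le
      · push Not at hc'
        exact hn2 n (p n) hn2' hp0 hp1 hnp hc'.le
  rw [Real.dist_eq, abs_lt]
  constructor <;> linarith

end Pool.Agent.Helper93.RC
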